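import Pool.Agent.Helper69.VSPot

/-!
# Expansion of the Cauchy transform at a point (R4c, R4d of MP_539ca6_an)
-/

open MeasureTheory Set Filter Topology

namespace Pool.Agent.Helper20.VS

open Pool.Agent.Helper90.VS

/-- area of the unit disc -/
noncomputable def Vd : ℝ := volume.real (Metric.ball (0 : ℂ) 1)

lemma Vd_eq : Vd = Real.pi := by
  unfold Vd
  rw [measureReal_def, Complex.volume_ball]
  simp

/-- `1/r` cut off to `r ≤ R` -/
noncomputable def h1 (R r : ℝ) : ℝ := (Iic R).indicator (fun r => r⁻¹) r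

/-- `1/r^3` cut off to `r > R` -/
noncomputable def h3 (R r : ℝ) : ℝ := (Ioi R).indicator (fun r => (r ^ 3)⁻¹) r

/-- `1/r^2` cut off to `q < r ≤ R` -/
noncomputable def h2 (q R r : ℝ) : ℝ := (Ioc q R).indicator (fun r => (r ^ 2)⁻¹) r

lemma h1_radial (R : ℝ) (y : ℝ) (hy : 0 < y) :
    y ^ (Module.finrank ℝ ℂ - 1) • h1 R y = (Iic R).indicator (fun _ => (1:ℝ)) y := by
  rw [Complex.finrank_real_complex]
  unfold h1
  by_cases h : y ∈ Iic R
  · rw [indicator_of_mem h, indicator_of_mem h]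
    simp [hy.ne']
  · rw [indicator_of_notMem h, indicator_of_notMem h]
    simp

lemma h3_radial (R : ℝ) (y : ℝ) (hy : 0 < y) :
    y ^ (Module.finrank ℝ ℂ - 1) • h3 R y = (Ioi R).indicator (fun y => (y ^ (-2 : ℝ))) y := by
  rw [Complex.finrank_real_complex]
  unfold h3
  by_cases h : y ∈ Ioi R
  · rw [indicator_of_mem h, indicator_of_mem h]
    rw [Real.rpow_neg hy.le]
    simp
    field_simp
  · rw [indicator_of_notMem h, indicator_of_notMem h]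
    simp

lemma h2_radial (q R : ℝ) (y : ℝ) (hy : 0 < y) :
    y ^ (Module.finrank ℝ ℂ - 1) • h2 q R y = (Ioc q R).indicator (fun y => y⁻¹) y := by
  rw [Complex.finrank_real_complex]
  unfold h2
  by_cases h : y ∈ Ioc q R
  · rw [indicator_of_mem h, indicator_of_mem h]
    simp
    field_simp
  · rw [indicator_of_notMem h, indicator_of_notMem h]
    simp

lemma h1_integrable (R : ℝ) : Integrable (fun z : ℂ => h1 R ‖z‖) := by
  rw [integrable_fun_norm_addHaar volume (f := h1 R)]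
  have h : IntegrableOn ((Iic R).indicator (fun _ => (1:ℝ))) (Ioi 0) := by
    rw [integrableOn_indicator_iff measurableSet_Iic]
    refine (integrableOn_const (C := (1:ℝ)) (s := Ioc 0 R) (by simp) (by simp)).mono_set ?_
    intro x hx
    exact ⟨hx.2, hx.1⟩
  refine h.congr_fun (fun y hy => ?_) measurableSet_Ioi
  exact (h1_radial R y hy).symm

lemma h1_integral (R : ℝ) (hR : 0 ≤ R) : ∫ z : ℂ, h1 R ‖z‖ = 2 * Vd * R := by
  rw [integral_fun_norm_addHaar volume (h1 R)]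
  have h : ∫ y in Ioi (0 : ℝ), y ^ (Module.finrank ℝ ℂ - 1) • h1 R y
      = ∫ y in Ioi (0 : ℝ), (Iic R).indicator (fun _ => (1:ℝ)) y :=
    setIntegral_congr_fun measurableSet_Ioi (fun y hy => h1_radial R y hy)
  rw [h, setIntegral_indicator measurableSet_Iic, Ioi_inter_Iic]
  rw [Complex.finrank_real_complex]
  simp [Vd, hR]
  ring

lemma h3_integrable (R : ℝ) (hR : 0 < R) : Integrable (fun z : ℂ => h3 R ‖z‖) := by
  rw [integrable_fun_norm_addHaar volume (f := h3 R)]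
  have h : IntegrableOn ((Ioi R).indicator (fun y => (y ^ (-2 : ℝ)))) (Ioi 0) := by
    rw [integrableOn_indicator_iff measurableSet_Ioi]
    refine (integrableOn_Ioi_rpow_of_lt (a := -2) (by norm_num) hR).mono_set ?_
    intro x hx
    exact hx.1
  refine h.congr_fun (fun y hy => ?_) measurableSet_Ioi
  exact (h3_radial R y hy).symm

lemma h3_integral (R : ℝ) (hR : 0 < R) : ∫ z : ℂ, h3 R ‖z‖ = 2 * Vd / R := by
  rw [integral_fun_norm_addHaar volume (h3 R)]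
  have h : ∫ y in Ioi (0 : ℝ), y ^ (Module.finrank ℝ ℂ - 1) • h3 R y
      = ∫ y in Ioi (0 : ℝ), (Ioi R).indicator (fun y => (y ^ (-2 : ℝ))) y :=
    setIntegral_congr_fun measurableSet_Ioi (fun y hy => h3_radial R y hy)
  rw [h, setIntegral_indicator measurableSet_Ioi, Ioi_inter_Ioi, sup_eq_right.mpr hR.le]
  rw [Complex.finrank_real_complex, integral_Ioi_rpow_of_lt (by norm_num) hR]
  norm_num [Vd, Real.rpow_neg hR.le]
  ring

lemma h2_integrable (q R : ℝ) (hq : 0 < q) : Integrable (fun z : ℂ => h2 q R ‖z‖) := by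
  rw [integrable_fun_norm_addHaar volume (f := h2 q R)]
  have h : IntegrableOn ((Ioc q R).indicator (fun y => y⁻¹)) (Ioi 0) := by
    rw [integrableOn_indicator_iff measurableSet_Ioc]
    have h' : IntegrableOn (fun y : ℝ => y⁻¹) (Icc q R) := by
      apply ContinuousOn.integrableOn_compact isCompact_Icc
      exact continuousOn_id.inv₀ (fun x hx => (hq.trans_le hx.1).ne')
    refine h'.mono_set ?_
    intro x hx
    exact ⟨hx.1.1.le, hx.1.2⟩
  refine h.congr_fun (fun y hy => ?_) measurableSet_Ioi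
  exact (h2_radial q R y hy).symm

lemma h2_integral (q R : ℝ) (hq : 0 < q) (hqR : q ≤ R) :
    ∫ z : ℂ, h2 q R ‖z‖ = 2 * Vd * Real.log (R / q) := by
  rw [integral_fun_norm_addHaar volume (h2 q R)]
  have h : ∫ y in Ioi (0 : ℝ), y ^ (Module.finrank ℝ ℂ - 1) • h2 q R y
      = ∫ y in Ioi (0 : ℝ), (Ioc q R).indicator (fun y => y⁻¹) y :=
    setIntegral_congr_fun measurableSet_Ioi (fun y hy => h2_radial q R y hy)
  have hsub : Ioi 0 ∩ Ioc q R = Ioc q R := by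
    apply inter_eq_right.mpr
    intro x hx
    exact hq.trans hx.1
  rw [h, setIntegral_indicator measurableSet_Ioc, hsub, ← intervalIntegral.integral_of_le hqR,
    integral_inv_of_pos hq (hq.trans_le hqR)]
  rw [Complex.finrank_real_complex]
  simp [Vd]
  ring

lemma h1_nonneg (R r : ℝ) (hr : 0 ≤ r) : 0 ≤ h1 R r := by
  unfold h1
  exact indicator_apply_nonneg (fun _ => inv_nonneg.mpr hr)

lemma h3_nonneg (R r : ℝ) (hr : 0 ≤ r) : 0 ≤ h3 R r := by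
  unfold h3
  exact indicator_apply_nonneg (fun _ => by positivity)

/-- pointwise bound, near part -/
lemma near_bound (z u : ℂ) (hz : z ≠ 0) (hu : u ≠ 0) (huz : u ≠ z) (h : ‖u‖ ≤ 2 * ‖z‖) :
    ‖(z - u)⁻¹ - (-u)⁻¹‖ ≤ h1 (3 * ‖z‖) ‖u - z‖ + h1 (3 * ‖z‖) ‖u‖ := by
  have hzn : 0 < ‖z‖ := norm_pos_iff.mpr hz
  have hun : 0 < ‖u‖ := norm_pos_iff.mpr hu
  have hne : u - z ≠ 0 := sub_ne_zero.mpr huz
  have hne' : z - u ≠ 0 := sub_ne_zero.mpr (Ne.symm huz)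
  have huzn : 0 < ‖u - z‖ := norm_pos_iff.mpr hne
  have h1' : ‖u‖ ∈ Iic (3 * ‖z‖) := by
    simp only [mem_Iic]; linarith
  have h2' : ‖u - z‖ ∈ Iic (3 * ‖z‖) := by
    simp only [mem_Iic]
    have := norm_sub_le u z
    linarith
  unfold h1
  rw [indicator_of_mem h1', indicator_of_mem h2']
  have h3 : (z - u)⁻¹ - (-u)⁻¹ = z * ((u)⁻¹ * (z - u)⁻¹) := by
    field_simp
    ring
  rw [h3, norm_mul, norm_mul, norm_inv, norm_inv, norm_sub_rev z u]
  have h4 : ‖z‖ ≤ ‖u‖ + ‖u - z‖ := by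
    have : z = u - (u - z) := by ring
    calc ‖z‖ = ‖u - (u - z)‖ := by rw [← this]
      _ ≤ _ := norm_sub_le _ _
  have h5 : ‖u - z‖⁻¹ + ‖u‖⁻¹ = (‖u‖ + ‖u - z‖) * (‖u‖⁻¹ * ‖u - z‖⁻¹) := by
    field_simp
  rw [h5]
  gcongr

/-- pointwise bound, far part -/
lemma far_bound (z u : ℂ) (hz : z ≠ 0) (h : 2 * ‖z‖ < ‖u‖) :
    ‖(z - u)⁻¹ - (-u)⁻¹ + z * (u ^ 2)⁻¹‖ ≤ 2 * ‖z‖ ^ 2 * h3 (2 * ‖z‖) ‖u‖ := by
  have hzn : 0 < ‖z‖ := norm_pos_iff.mpr hz
  have hun : 0 < ‖u‖ := by linarith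
  have hu : u ≠ 0 := norm_pos_iff.mp hun
  have h4 : ‖u‖ / 2 ≤ ‖z - u‖ := by
    have := norm_sub_norm_le u z
    rw [norm_sub_rev] at this
    linarith
  have hne : z - u ≠ 0 := by
    apply norm_pos_iff.mp
    linarith
  unfold h3
  rw [indicator_of_mem (by exact h)]
  have h3 : (z - u)⁻¹ - (-u)⁻¹ + z * (u ^ 2)⁻¹ = z ^ 2 * ((u ^ 2)⁻¹ * (z - u)⁻¹) := by
    field_simp
    ring
  rw [h3, norm_mul, norm_mul, norm_inv, norm_inv, norm_pow, norm_pow]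
  have h5 : ‖z - u‖⁻¹ ≤ 2 / ‖u‖ := by
    rw [inv_le_comm₀ (by linarith) (by positivity)]
    simpa using h4
  calc ‖z‖ ^ 2 * ((‖u‖ ^ 2)⁻¹ * ‖z - u‖⁻¹) ≤ ‖z‖ ^ 2 * ((‖u‖ ^ 2)⁻¹ * (2 / ‖u‖)) := by gcongr
    _ = _ := by field_simp

lemma inv2_integrable {D : Set ℂ} (hD : MeasurableSet D) (hb : Bornology.IsBounded D) (p : ℂ)
    (ρ : ℝ) (hρ : 0 < ρ) :
    IntegrableOn (fun y => ((y - p) ^ 2)⁻¹) (D ∩ {y | 2 * ρ < ‖y - p‖}) := by
  have hm : MeasurableSet (D ∩ {y : ℂ | 2 * ρ < ‖y - p‖}) :=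
    hD.inter (measurableSet_lt measurable_const (by fun_prop))
  have hfin : volume (D ∩ {y : ℂ | 2 * ρ < ‖y - p‖}) < ⊤ :=
    (hb.subset inter_subset_left).measure_lt_top
  have : IsFiniteMeasure (volume.restrict (D ∩ {y : ℂ | 2 * ρ < ‖y - p‖})) :=
    ⟨by rw [Measure.restrict_apply_univ]; exact hfin⟩
  refine Integrable.mono' (integrable_const (((2 * ρ) ^ 2)⁻¹)) ?_ ?_
  · apply Measurable.aestronglyMeasurable
    fun_prop
  · filter_upwards [ae_restrict_mem hm] with y hy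
    rw [norm_inv, norm_pow]
    have : 2 * ρ < ‖y - p‖ := hy.2
    gcongr

/-- R4c -/
theorem CT_expand (D : Set ℂ) (hD : MeasurableSet D) (hb : Bornology.IsBounded D) (p : ℂ) :
    ∃ C : ℝ, ∀ z : ℂ, z ≠ 0 → ‖CT D (p + z) - CT D p + z * BB D p ‖z‖‖ ≤ C * ‖z‖ := by
  refine ⟨14 * Vd, fun z hz => ?_⟩
  have hzn : 0 < ‖z‖ := norm_pos_iff.mpr hz
  have hS : MeasurableSet {y : ℂ | 2 * ‖z‖ < ‖y - p‖} :=
    measurableSet_lt measurable_const (by fun_prop)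
  have hB : BB D p ‖z‖ =
      ∫ y in D, {y : ℂ | 2 * ‖z‖ < ‖y - p‖}.indicator (fun y => ((y - p) ^ 2)⁻¹) y := by
    rw [setIntegral_indicator hS]
    rfl
  have hBi : IntegrableOn
      ({y : ℂ | 2 * ‖z‖ < ‖y - p‖}.indicator (fun y => ((y - p) ^ 2)⁻¹)) D := by
    rw [integrableOn_indicator_iff hS, inter_comm]
    exact inv2_integrable hD hb p ‖z‖ hzn
  have hi1 := Helper69.VSPot.inv_integrable hb (p + z)
  have hi2 := Helper69.VSPot.inv_integrable hb p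
  have hexp : CT D (p + z) - CT D p + z * BB D p ‖z‖ =
      ∫ y in D, ((p + z - y)⁻¹ - (p - y)⁻¹ +
        z * {y : ℂ | 2 * ‖z‖ < ‖y - p‖}.indicator (fun y => ((y - p) ^ 2)⁻¹) y) := by
    have e1 : ∫ y in D, ((p + z - y)⁻¹ - (p - y)⁻¹ +
        z * {y : ℂ | 2 * ‖z‖ < ‖y - p‖}.indicator (fun y => ((y - p) ^ 2)⁻¹) y) =
        (∫ y in D, ((p + z - y)⁻¹ - (p - y)⁻¹)) + ∫ y in D,
        z * {y : ℂ | 2 * ‖z‖ < ‖y - p‖}.indicator (fun y => ((y - p) ^ 2)⁻¹) y :=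
      integral_add (hi1.sub hi2) (hBi.const_mul z)
    rw [e1, integral_sub hi1 hi2, hB, integral_const_mul]
    rfl
  let F : ℂ → ℝ := fun y => h1 (3 * ‖z‖) ‖y - p - z‖ + h1 (3 * ‖z‖) ‖y - p‖ +
    2 * ‖z‖ ^ 2 * h3 (2 * ‖z‖) ‖y - p‖
  have hF1 : Integrable (fun y : ℂ => h1 (3 * ‖z‖) ‖y - p - z‖) :=
    by simpa [sub_sub] using (h1_integrable (3 * ‖z‖)).comp_sub_right (p + z)
  have hF2 : Integrable (fun y : ℂ => h1 (3 * ‖z‖) ‖y - p‖) :=
    (h1_integrable (3 * ‖z‖)).comp_sub_right p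
  have hF3 : Integrable (fun y : ℂ => h3 (2 * ‖z‖) ‖y - p‖) :=
    (h3_integrable (2 * ‖z‖) (by positivity)).comp_sub_right p
  have hF : Integrable F := (hF1.add hF2).add (hF3.const_mul _)
  have hFI : ∫ y, F y = 14 * Vd * ‖z‖ := by
    have e1 : ∫ y : ℂ, h1 (3 * ‖z‖) ‖y - p - z‖ = 2 * Vd * (3 * ‖z‖) := by
      rw [← h1_integral (3 * ‖z‖) (by positivity)]
      have := integral_sub_right_eq_self (μ := (volume : Measure ℂ))
        (fun y : ℂ => h1 (3 * ‖z‖) ‖y‖) (p + z)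
      simpa [sub_sub] using this
    have e2 : ∫ y : ℂ, h1 (3 * ‖z‖) ‖y - p‖ = 2 * Vd * (3 * ‖z‖) := by
      rw [← h1_integral (3 * ‖z‖) (by positivity)]
      exact integral_sub_right_eq_self (μ := (volume : Measure ℂ))
        (fun y : ℂ => h1 (3 * ‖z‖) ‖y‖) p
    have e3 : ∫ y : ℂ, h3 (2 * ‖z‖) ‖y - p‖ = 2 * Vd / (2 * ‖z‖) := by
      rw [← h3_integral (2 * ‖z‖) (by positivity)]
      exact integral_sub_right_eq_self (μ := (volume : Measure ℂ))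
        (fun y : ℂ => h3 (2 * ‖z‖) ‖y‖) p
    show ∫ y, (h1 (3 * ‖z‖) ‖y - p - z‖ + h1 (3 * ‖z‖) ‖y - p‖ +
      2 * ‖z‖ ^ 2 * h3 (2 * ‖z‖) ‖y - p‖) = _
    have e4 : ∫ y, (h1 (3 * ‖z‖) ‖y - p - z‖ + h1 (3 * ‖z‖) ‖y - p‖ +
        2 * ‖z‖ ^ 2 * h3 (2 * ‖z‖) ‖y - p‖) =
        (∫ y, (h1 (3 * ‖z‖) ‖y - p - z‖ + h1 (3 * ‖z‖) ‖y - p‖)) +
        ∫ y, 2 * ‖z‖ ^ 2 * h3 (2 * ‖z‖) ‖y - p‖ :=
      integral_add (hF1.add hF2) (hF3.const_mul _)
    rw [e4, integral_add hF1 hF2, integral_const_mul, e1, e2, e3]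
    field_simp
    ring
  have hF0 : ∀ y, 0 ≤ F y := fun y => by
    have a1 := h1_nonneg (3 * ‖z‖) ‖y - p - z‖ (norm_nonneg _)
    have a2 := h1_nonneg (3 * ‖z‖) ‖y - p‖ (norm_nonneg _)
    have a3 := h3_nonneg (2 * ‖z‖) ‖y - p‖ (norm_nonneg _)
    show 0 ≤ h1 (3 * ‖z‖) ‖y - p - z‖ + h1 (3 * ‖z‖) ‖y - p‖ +
      2 * ‖z‖ ^ 2 * h3 (2 * ‖z‖) ‖y - p‖
    positivity
  rw [hexp]
  calc ‖∫ y in D, ((p + z - y)⁻¹ - (p - y)⁻¹ +
        z * {y : ℂ | 2 * ‖z‖ < ‖y - p‖}.indicator (fun y => ((y - p) ^ 2)⁻¹) y)‖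
      ≤ ∫ y in D, F y := by
        refine norm_integral_le_of_norm_le hF.restrict ?_
        filter_upwards [Helper69.VSPot.ae_sub_ne p (volume.restrict D),
          Helper69.VSPot.ae_sub_ne (p + z) (volume.restrict D)] with y hy1 hy2
        have hu : y - p ≠ 0 := by
          intro h
          apply hy1
          rw [← neg_sub, h, neg_zero]
        have huz : y - p ≠ z := by
          intro h
          apply hy2
          rw [← h]
          ring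
        have r1 : p + z - y = z - (y - p) := by ring
        have r2 : p - y = -(y - p) := by ring
        rw [r1, r2]
        have a1 := h1_nonneg (3 * ‖z‖) ‖y - p - z‖ (norm_nonneg _)
        have a2 := h1_nonneg (3 * ‖z‖) ‖y - p‖ (norm_nonneg _)
        have a3 := h3_nonneg (2 * ‖z‖) ‖y - p‖ (norm_nonneg _)
        have a4 : 0 ≤ 2 * ‖z‖ ^ 2 * h3 (2 * ‖z‖) ‖y - p‖ := by positivity
        by_cases hc : 2 * ‖z‖ < ‖y - p‖
        · rw [indicator_of_mem (by exact hc)]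
          have := far_bound z (y - p) hz hc
          show _ ≤ h1 (3 * ‖z‖) ‖y - p - z‖ + h1 (3 * ‖z‖) ‖y - p‖ +
            2 * ‖z‖ ^ 2 * h3 (2 * ‖z‖) ‖y - p‖
          linarith
        · rw [indicator_of_notMem (by exact hc), mul_zero, add_zero]
          have := near_bound z (y - p) hz hu huz (not_lt.mp hc)
          show _ ≤ h1 (3 * ‖z‖) ‖y - p - z‖ + h1 (3 * ‖z‖) ‖y - p‖ +
            2 * ‖z‖ ^ 2 * h3 (2 * ‖z‖) ‖y - p‖
          linarith
    _ ≤ ∫ y, F y := setIntegral_le_integral hF (Eventually.of_forall hF0)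
    _ = _ := hFI

/-- R4d -/
theorem BB_scale (D : Set ℂ) (hD : MeasurableSet D) (hb : Bornology.IsBounded D) (p : ℂ)
    (s ρ : ℝ) (hs : 0 < s) (hs1 : s ≤ 1) (hρ : 0 < ρ) :
    ‖BB D p (s * ρ) - BB D p ρ‖ ≤ 2 * Real.pi * Real.log (1 / s) := by
  have hsρ : 0 < s * ρ := by positivity
  have hle : s * ρ ≤ ρ := by nlinarith
  have hm : ∀ r : ℝ, MeasurableSet (D ∩ {y : ℂ | 2 * r < ‖y - p‖}) := fun r =>
    hD.inter (measurableSet_lt measurable_const (by fun_prop))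
  have hsub : D ∩ {y : ℂ | 2 * ρ < ‖y - p‖} ⊆ D ∩ {y : ℂ | 2 * (s * ρ) < ‖y - p‖} := by
    intro y hy
    refine ⟨hy.1, ?_⟩
    have : 2 * ρ < ‖y - p‖ := hy.2
    show 2 * (s * ρ) < ‖y - p‖
    linarith
  have hI := inv2_integrable hD hb p (s * ρ) hsρ
  have hdiff : BB D p (s * ρ) - BB D p ρ =
      ∫ y in (D ∩ {y : ℂ | 2 * (s * ρ) < ‖y - p‖}) \ (D ∩ {y : ℂ | 2 * ρ < ‖y - p‖}),
        ((y - p) ^ 2)⁻¹ := by
    unfold BB
    rw [setIntegral_sdiff (hm ρ) hI hsub]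
  have h2i : Integrable (fun y : ℂ => h2 (2 * (s * ρ)) (2 * ρ) ‖y - p‖) :=
    (h2_integrable (2 * (s * ρ)) (2 * ρ) (by positivity)).comp_sub_right p
  have h2I : ∫ y : ℂ, h2 (2 * (s * ρ)) (2 * ρ) ‖y - p‖ = 2 * Real.pi * Real.log (1 / s) := by
    rw [← Vd_eq]
    have e : 1 / s = (2 * ρ) / (2 * (s * ρ)) := by
      field_simp
    rw [e, ← h2_integral (2 * (s * ρ)) (2 * ρ) (by positivity) (by linarith)]
    exact integral_sub_right_eq_self (μ := (volume : Measure ℂ))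
      (fun y : ℂ => h2 (2 * (s * ρ)) (2 * ρ) ‖y‖) p
  rw [hdiff]
  calc ‖∫ y in (D ∩ {y : ℂ | 2 * (s * ρ) < ‖y - p‖}) \ (D ∩ {y : ℂ | 2 * ρ < ‖y - p‖}),
        ((y - p) ^ 2)⁻¹‖
      ≤ ∫ y in (D ∩ {y : ℂ | 2 * (s * ρ) < ‖y - p‖}) \ (D ∩ {y : ℂ | 2 * ρ < ‖y - p‖}),
        h2 (2 * (s * ρ)) (2 * ρ) ‖y - p‖ := by
        refine norm_integral_le_of_norm_le h2i.restrict ?_
        filter_upwards [ae_restrict_mem ((hm (s * ρ)).diff (hm ρ))] with y hy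
        have y1 : 2 * (s * ρ) < ‖y - p‖ := hy.1.2
        have y2 : ‖y - p‖ ≤ 2 * ρ := by
          by_contra h
          exact hy.2 ⟨hy.1.1, not_le.mp h⟩
        unfold h2
        rw [indicator_of_mem (by exact ⟨y1, y2⟩), norm_inv, norm_pow]
    _ ≤ ∫ y, h2 (2 * (s * ρ)) (2 * ρ) ‖y - p‖ := by
        refine setIntegral_le_integral h2i (Eventually.of_forall fun y => ?_)
        show 0 ≤ h2 _ _ _
        unfold h2
        exact indicator_apply_nonneg (fun _ => by positivity)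
    _ = _ := h2I

end Pool.Agent.Helper20.VS
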