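import Pool.Agent.Helper90.VS.Defs
import Pool.Agent.Helper23.VS.Brouwer

/-!
# Fixed points of maps on monotone profiles (from Brouwer's theorem)
-/

set_option autoImplicit false

open MeasureTheory Set Filter Topology

namespace Pool.Agent.Helper20.VS

open Pool.Agent.Helper90.VS

/-! ### Helly selection -/

theorem helly (a : ℕ → ℝ → ℝ) (ha : ∀ n, Prof (a n)) :
    ∃ (φ : ℕ → ℕ) (b : ℝ → ℝ), StrictMono φ ∧ Prof b ∧
      ∀ t, ContinuousAt b t → Tendsto (fun n => a (φ n) t) atTop (𝓝 (b t)) := by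
  let x : ℕ → (ℚ → Icc (0:ℝ) Real.pi) := fun n q => ⟨a n q, (ha n).nonneg _, (ha n).le_pi _⟩
  obtain ⟨L, φ, hφ, hL⟩ := CompactSpace.tendsto_subseq x
  rw [tendsto_pi_nhds] at hL
  have hL' : ∀ q : ℚ, Tendsto (fun n => a (φ n) q) atTop (𝓝 (L q : ℝ)) := fun q =>
    (continuous_subtype_val.tendsto _).comp (hL q)
  have hmono : ∀ q q' : ℚ, q ≤ q' → (L q : ℝ) ≤ L q' := fun q q' h =>
    le_of_tendsto_of_tendsto' (hL' q) (hL' q') (fun n => (ha _).mono (by exact_mod_cast h))
  have hbdd : ∀ t : ℝ, BddBelow ((fun q : ℚ => (L q : ℝ)) '' {q | t < q}) := fun t =>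
    ⟨0, by rintro _ ⟨q, _, rfl⟩; exact (L q).2.1⟩
  have hne : ∀ t : ℝ, ((fun q : ℚ => (L q : ℝ)) '' {q | t < q}).Nonempty := fun t => by
    obtain ⟨q, hq⟩ := exists_rat_gt t
    exact ⟨_, q, hq, rfl⟩
  let b : ℝ → ℝ := fun t => sInf ((fun q : ℚ => (L q : ℝ)) '' {q | t < q})
  have hb1 : ∀ (t : ℝ) (q : ℚ), t < q → b t ≤ L q := fun t q h => csInf_le (hbdd t) ⟨q, h, rfl⟩
  have hb2 : ∀ (t : ℝ) (q : ℚ), (q : ℝ) ≤ t → (L q : ℝ) ≤ b t := fun t q h => by
    apply le_csInf (hne t)
    rintro _ ⟨q', hq', rfl⟩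
    exact hmono _ _ (by
      have : (q : ℝ) < q' := lt_of_le_of_lt h hq'
      exact_mod_cast this.le)
  have hbP : Prof b := by
    refine ⟨?_, ?_, ?_⟩
    · intro s t hst
      apply csInf_le_csInf (hbdd s) (hne t)
      apply image_mono
      intro q hq
      exact lt_of_le_of_lt hst hq
    · intro t
      apply le_csInf (hne t)
      rintro _ ⟨q, _, rfl⟩
      exact (L q).2.1
    · intro t
      obtain ⟨q, hq⟩ := exists_rat_gt t
      exact (hb1 t q hq).trans (L q).2.2
  refine ⟨φ, b, hφ, hbP, fun t ht => ?_⟩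
  rw [tendsto_order]
  constructor
  · intro c hc
    have h1 : ∀ᶠ s in 𝓝[<] t, c < b s := (ht.eventually (lt_mem_nhds hc)).filter_mono
      nhdsWithin_le_nhds
    obtain ⟨s, hs1, hs2⟩ := (h1.and self_mem_nhdsWithin).exists
    obtain ⟨q, hq1, hq2⟩ := exists_rat_btwn hs2
    have h2 : c < L q := hs1.trans_le (hb1 s q hq1)
    filter_upwards [(hL' q).eventually (lt_mem_nhds h2)] with n hn
    exact hn.trans_le ((ha _).mono hq2.le)
  · intro c hc
    have h1 : ∀ᶠ s in 𝓝[>] t, b s < c := (ht.eventually (gt_mem_nhds hc)).filter_mono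
      nhdsWithin_le_nhds
    obtain ⟨s, hs1, hs2⟩ := (h1.and self_mem_nhdsWithin).exists
    obtain ⟨q, hq1, hq2⟩ := exists_rat_btwn hs2
    have h2 : (L q : ℝ) < c := (hb2 s q hq2.le).trans_lt hs1
    filter_upwards [(hL' q).eventually (gt_mem_nhds h2)] with n hn
    exact ((ha _).mono hq1.le).trans_lt hn

/-! ### integrals of `sin ∘ a` -/

lemma sin_intervalIntegrable {a : ℝ → ℝ} (ha : Prof a) (u v : ℝ) :
    IntervalIntegrable (fun t => Real.sin (a t)) volume u v := by
  refine (intervalIntegrable_const (c := (1:ℝ))).mono_fun' ?_ ?_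
  · exact (Real.measurable_sin.comp ha.mono.measurable).aestronglyMeasurable
  · exact Filter.Eventually.of_forall (fun t => by
      show ‖Real.sin (a t)‖ ≤ 1
      rw [Real.norm_eq_abs]; exact Real.abs_sin_le_one _)

/-- grid points -/
noncomputable def gp (N : ℕ) (k : ℕ) : ℝ := 10 * k / (N + 1)

/-- index of the cell -/
noncomputable def ci (N : ℕ) (t : ℝ) : Fin (N + 1) := ⟨min N ⌊t * (N + 1) / 10⌋₊, by omega⟩

lemma N1_pos (N : ℕ) : (0:ℝ) < (N:ℝ) + 1 := by positivity

lemma gp_zero (N : ℕ) : gp N 0 = 0 := by simp [gp]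

lemma gp_last (N : ℕ) : gp N (N + 1) = 10 := by
  unfold gp
  have := N1_pos N
  push_cast
  field_simp

lemma gp_succ (N k : ℕ) : gp N (k + 1) = gp N k + 10 / (N + 1) := by
  unfold gp
  have := N1_pos N
  push_cast
  field_simp

lemma ci_mono (N : ℕ) : Monotone (ci N) := by
  intro s t h
  show (⟨_, _⟩ : Fin (N + 1)) ≤ ⟨_, _⟩
  rw [Fin.mk_le_mk]
  have h1 : ⌊s * (N + 1) / 10⌋₊ ≤ ⌊t * (N + 1) / 10⌋₊ := by
    apply Nat.floor_mono
    have := N1_pos N
    gcongr
  omega

lemma ci_of_mem {N k : ℕ} (hk : k < N + 1) {t : ℝ} (h1 : gp N k ≤ t) (h2 : t < gp N (k + 1)) :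
    ci N t = ⟨k, hk⟩ := by
  have hN := N1_pos N
  have h3 : ⌊t * (N + 1) / 10⌋₊ = k := by
    rw [Nat.floor_eq_iff]
    · unfold gp at h1 h2
      rw [div_le_iff₀ hN] at h1
      rw [lt_div_iff₀ hN] at h2
      push_cast at h2
      constructor <;> linarith
    · have h0 : 0 ≤ gp N k := by unfold gp; positivity
      have : 0 ≤ t := h0.trans h1
      positivity
  unfold ci
  ext
  show min N ⌊t * (N + 1) / 10⌋₊ = k
  rw [h3]
  omega

lemma mass_sum {a : ℝ → ℝ} (ha : Prof a) (N : ℕ) :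
    mass a = ∑ k ∈ Finset.range (N + 1), ∫ t in gp N k..gp N (k + 1), Real.sin (a t) := by
  rw [intervalIntegral.sum_integral_adjacent_intervals (fun k _ => sin_intervalIntegrable ha _ _),
    gp_zero, gp_last]
  rfl

/-- upper bound by a Riemann sum -/
lemma mass_le {a : ℝ → ℝ} (ha : Prof a) (N : ℕ) :
    mass a ≤ 10 / (N + 1) * (∑ k ∈ Finset.range (N + 1), Real.sin (a (gp N k)) + Real.pi) := by
  have hN := N1_pos N
  rw [mass_sum ha N]
  have h1 : ∀ k ∈ Finset.range (N + 1), ∫ t in gp N k..gp N (k + 1), Real.sin (a t) ≤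
      10 / (N + 1) * (Real.sin (a (gp N k)) + (a (gp N (k + 1)) - a (gp N k))) := by
    intro k _
    have hle : gp N k ≤ gp N (k + 1) := by
      rw [gp_succ]
      have : 0 < 10 / ((N:ℝ) + 1) := by positivity
      linarith
    calc ∫ t in gp N k..gp N (k + 1), Real.sin (a t)
        ≤ ∫ _t in gp N k..gp N (k + 1),
            (Real.sin (a (gp N k)) + (a (gp N (k + 1)) - a (gp N k))) := by
          apply intervalIntegral.integral_mono_on hle (sin_intervalIntegrable ha _ _)
            intervalIntegrable_const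
          intro t ht
          have h2 := ha.mono ht.1
          have h3 := ha.mono ht.2
          have h4 : |Real.sin (a t) - Real.sin (a (gp N k))| ≤ |a t - a (gp N k)| := by
            have := Real.lipschitzWith_sin.dist_le_mul (a t) (a (gp N k))
            simpa [Real.dist_eq] using this
          rw [abs_of_nonneg (by linarith : 0 ≤ a t - a (gp N k))] at h4
          have h5 := (abs_le.1 h4).2
          linarith
      _ = _ := by
          rw [intervalIntegral.integral_const, gp_succ, smul_eq_mul]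
          ring
  refine (Finset.sum_le_sum h1).trans ?_
  rw [← Finset.mul_sum, Finset.sum_add_distrib, Finset.sum_range_sub (fun k => a (gp N k))]
  have h6 := ha.nonneg (gp N 0)
  have h7 := ha.le_pi (gp N (N + 1))
  have : 0 < 10 / ((N:ℝ) + 1) := by positivity
  gcongr
  linarith

/-- mass of a step function -/
lemma mass_step {N : ℕ} {r : Fin (N + 1) → ℝ} (hr : Prof (fun t => r (ci N t))) :
    mass (fun t => r (ci N t)) = 10 / (N + 1) * ∑ i, Real.sin (r i) := by
  have hN := N1_pos N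
  rw [mass_sum hr N, Finset.mul_sum, ← Fin.sum_univ_eq_sum_range
    (fun k => ∫ t in gp N k..gp N (k + 1), Real.sin (r (ci N t))) (N + 1)]
  apply Finset.sum_congr rfl
  intro i _
  have hle : gp N i ≤ gp N (i + 1) := by
    rw [gp_succ]
    have : 0 < 10 / ((N:ℝ) + 1) := by positivity
    linarith
  rw [intervalIntegral.integral_of_le hle, integral_Ioc_eq_integral_Ioo]
  have h1 : ∫ t in Ioo (gp N i) (gp N (i + 1)), Real.sin (r (ci N t)) =
      ∫ _t in Ioo (gp N i) (gp N (i + 1)), Real.sin (r i) := by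
    apply setIntegral_congr_fun measurableSet_Ioo
    intro t ht
    have := ci_of_mem i.is_lt ht.1.le ht.2
    simp only [this, Fin.eta]
  rw [h1, ← integral_Ioc_eq_integral_Ioo, ← intervalIntegral.integral_of_le hle,
    intervalIntegral.integral_const, gp_succ, smul_eq_mul]
  ring

/-! ### the retraction -/

noncomputable def cl (x : ℝ) : ℝ := max 0 (min x Real.pi)

lemma cl_nonneg (x : ℝ) : 0 ≤ cl x := le_max_left _ _
lemma cl_le (x : ℝ) : cl x ≤ Real.pi := max_le Real.pi_pos.le (min_le_right _ _)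
lemma cl_eq {x : ℝ} (h0 : 0 ≤ x) (h1 : x ≤ Real.pi) : cl x = x := by
  unfold cl
  rw [min_eq_left h1, max_eq_right h0]
lemma cl_cont : Continuous cl := continuous_const.max (continuous_id.min continuous_const)

variable (κ : ℝ) (N : ℕ)

/-- monotone rearrangement -/
noncomputable def wm (v : Fin (N + 1) → ℝ) (i : Fin (N + 1)) : ℝ :=
  (Finset.Iic i).sup' ⟨i, Finset.mem_Iic.2 le_rfl⟩ (fun j => cl (v j))

/-- average of the sine -/
noncomputable def sm (v : Fin (N + 1) → ℝ) : ℝ := 1 / (N + 1) * ∑ i, Real.sin (wm N v i)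

/-- weight -/
noncomputable def lm (v : Fin (N + 1) → ℝ) : ℝ := max 0 ((κ / 10 - sm N v) / (1 - κ / 10))

/-- values -/
noncomputable def rm (v : Fin (N + 1) → ℝ) (i : Fin (N + 1)) : ℝ :=
  (1 - lm κ N v) * wm N v i + lm κ N v * (Real.pi / 2)

/-- step profile -/
noncomputable def stp (v : Fin (N + 1) → ℝ) : ℝ → ℝ := fun t => rm κ N v (ci N t)

variable {κ N}

lemma wm_nonneg (v : Fin (N + 1) → ℝ) (i : Fin (N + 1)) : 0 ≤ wm N v i :=
  (cl_nonneg (v i)).trans (Finset.le_sup' (fun j => cl (v j)) (Finset.mem_Iic.2 le_rfl))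

lemma wm_le (v : Fin (N + 1) → ℝ) (i : Fin (N + 1)) : wm N v i ≤ Real.pi :=
  Finset.sup'_le _ _ (fun j _ => cl_le (v j))

lemma wm_mono (v : Fin (N + 1) → ℝ) : Monotone (wm N v) := by
  intro i j hij
  apply Finset.sup'_le
  intro k hk
  exact Finset.le_sup' (fun j => cl (v j)) (Finset.mem_Iic.2 ((Finset.mem_Iic.1 hk).trans hij))

lemma wm_eq {v : Fin (N + 1) → ℝ} (hv : Monotone v) (h0 : ∀ i, 0 ≤ v i)
    (h1 : ∀ i, v i ≤ Real.pi) (i : Fin (N + 1)) : wm N v i = v i := by
  apply le_antisymm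
  · apply Finset.sup'_le
    intro j hj
    rw [cl_eq (h0 j) (h1 j)]
    exact hv (Finset.mem_Iic.1 hj)
  · have := Finset.le_sup' (fun j => cl (v j)) (Finset.mem_Iic.2 (le_refl i))
    rw [cl_eq (h0 i) (h1 i)] at this
    exact this

lemma wm_cont (i : Fin (N + 1)) : Continuous (fun v : Fin (N + 1) → ℝ => wm N v i) := by
  unfold wm
  apply Continuous.finset_sup'_apply
  intro j _
  exact cl_cont.comp (continuous_apply j)

lemma sm_cont : Continuous (sm N) :=
  continuous_const.mul (continuous_finsetSum _ (fun i _ => Real.continuous_sin.comp (wm_cont i)))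

lemma sm_nonneg (v : Fin (N + 1) → ℝ) : 0 ≤ sm N v := by
  have hN := N1_pos N
  unfold sm
  apply mul_nonneg (by positivity)
  exact Finset.sum_nonneg (fun i _ => Real.sin_nonneg_of_nonneg_of_le_pi (wm_nonneg v i)
    (wm_le v i))

lemma lm_cont : Continuous (lm κ N) :=
  continuous_const.max ((continuous_const.sub sm_cont).div_const _)

lemma lm_nonneg (v : Fin (N + 1) → ℝ) : 0 ≤ lm κ N v := le_max_left _ _

lemma lm_le (_hκ : 0 < κ) (hκ5 : κ ≤ 5) (v : Fin (N + 1) → ℝ) : lm κ N v ≤ 1 := by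
  apply max_le zero_le_one
  rw [div_le_one (by linarith)]
  have := sm_nonneg v
  linarith

lemma rm_cont (i : Fin (N + 1)) : Continuous (fun v : Fin (N + 1) → ℝ => rm κ N v i) :=
  ((continuous_const.sub lm_cont).mul (wm_cont i)).add (lm_cont.mul continuous_const)

lemma stp_prof (hκ : 0 < κ) (hκ5 : κ ≤ 5) (v : Fin (N + 1) → ℝ) : Prof (stp κ N v) := by
  have h0 := lm_nonneg (κ := κ) v
  have h1 := lm_le hκ hκ5 v
  have hpi := Real.pi_pos
  refine ⟨?_, ?_, ?_⟩
  · intro s t hst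
    have h2 := wm_mono v (ci_mono N hst)
    unfold stp rm
    have := mul_le_mul_of_nonneg_left h2 (sub_nonneg.2 h1)
    linarith
  · intro t
    have h2 := wm_nonneg v (ci N t)
    unfold stp rm
    have := mul_nonneg (sub_nonneg.2 h1) h2
    have := mul_nonneg h0 (by positivity : 0 ≤ Real.pi / 2)
    linarith
  · intro t
    have h2 := wm_le v (ci N t)
    unfold stp rm
    have := mul_le_mul_of_nonneg_left h2 (sub_nonneg.2 h1)
    nlinarith

lemma stp_mass (hκ : 0 < κ) (hκ5 : κ ≤ 5) (v : Fin (N + 1) → ℝ) : κ ≤ mass (stp κ N v) := by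
  have hN := N1_pos N
  have h0 := lm_nonneg (κ := κ) v
  have h1 := lm_le hκ hκ5 v
  have hP := stp_prof hκ hκ5 v
  have hm : mass (stp κ N v) = 10 / (N + 1) * ∑ i, Real.sin (rm κ N v i) := mass_step hP
  rw [hm]
  have h2 : ∀ i, (1 - lm κ N v) * Real.sin (wm N v i) + lm κ N v ≤ Real.sin (rm κ N v i) := by
    intro i
    have h3 := strictConcaveOn_sin_Icc.concaveOn.2 (x := wm N v i) (y := Real.pi / 2)
      ⟨wm_nonneg v i, wm_le v i⟩ ⟨by positivity, by linarith [Real.pi_pos]⟩
      (sub_nonneg.2 h1) h0 (by ring)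
    simp only [smul_eq_mul, Real.sin_pi_div_two, mul_one] at h3
    exact h3
  have h3 : ∑ i, ((1 - lm κ N v) * Real.sin (wm N v i) + lm κ N v) ≤
      ∑ i, Real.sin (rm κ N v i) := Finset.sum_le_sum (fun i _ => h2 i)
  rw [Finset.sum_add_distrib, ← Finset.mul_sum, Finset.sum_const, Finset.card_univ,
    Fintype.card_fin, nsmul_eq_mul] at h3
  have h4 : ∑ i, Real.sin (wm N v i) = (N + 1) * sm N v := by
    unfold sm
    field_simp
  rw [h4] at h3
  push_cast at h3
  have h5 : κ / 10 ≤ (1 - lm κ N v) * sm N v + lm κ N v := by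
    rcases le_or_gt (κ / 10) (sm N v) with h | h
    · have : lm κ N v = 0 := by
        unfold lm
        apply max_eq_left
        exact div_nonpos_of_nonpos_of_nonneg (by linarith) (by linarith)
      rw [this]
      linarith
    · have h6 : lm κ N v * (1 - κ / 10) = κ / 10 - sm N v := by
        have : lm κ N v = (κ / 10 - sm N v) / (1 - κ / 10) := by
          unfold lm
          apply max_eq_right
          exact div_nonneg (by linarith) (by linarith)
        rw [this, div_mul_cancel₀]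
        linarith
      nlinarith
  have h7 : (N + 1) * (κ / 10) ≤ ∑ i, Real.sin (rm κ N v i) := by
    refine le_trans ?_ h3
    have := mul_le_mul_of_nonneg_left h5 hN.le
    linarith
  calc κ = 10 / (N + 1) * ((N + 1) * (κ / 10)) := by field_simp
    _ ≤ _ := by
      apply mul_le_mul_of_nonneg_left h7
      positivity

/-- approximate fixed points -/
theorem exists_approx
    (brouwer : ∀ (n : ℕ) (f : (Fin n → ℝ) → (Fin n → ℝ)), ContinuousOn f (Icc 0 1) →
      MapsTo f (Icc 0 1) (Icc 0 1) → ∃ x ∈ Icc (0 : Fin n → ℝ) 1, f x = x)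
    (hκ : 0 < κ) (hκ5 : κ ≤ 5) (T : (ℝ → ℝ) → (ℝ → ℝ))
    (hT : ∀ a, Prof a → κ ≤ mass a → Prof (T a) ∧ κ ≤ mass (T a))
    (hcont : ∀ (a : ℕ → ℝ → ℝ) (b : ℝ → ℝ), (∀ n, Prof (a n)) → (∀ n, κ ≤ mass (a n)) →
      Prof b → κ ≤ mass b →
      (∀ᵐ t ∂(volume.restrict (Icc (0:ℝ) 10)), Tendsto (fun n => a n t) atTop (𝓝 (b t))) →
      ∀ t ∈ Icc (0:ℝ) 10, Tendsto (fun n => T (a n) t) atTop (𝓝 (T b t))) (N : ℕ) :
    ∃ a, Prof a ∧ κ ≤ mass a ∧
      ∀ t, |a t - T a (gp N (ci N t))| ≤ 2 * Real.pi ^ 2 / (N + 1) := by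
  have hN := N1_pos N
  have hpi := Real.pi_pos
  let F : (Fin (N + 1) → ℝ) → (Fin (N + 1) → ℝ) := fun x i =>
    T (stp κ N (fun j => Real.pi * x j)) (gp N i) / Real.pi
  have hgp : ∀ i : Fin (N + 1), gp N i ∈ Icc (0:ℝ) 10 := by
    intro i
    have h1 : ((i : ℕ) : ℝ) ≤ N + 1 := by exact_mod_cast i.is_lt.le
    constructor
    · unfold gp; positivity
    · unfold gp
      rw [div_le_iff₀ hN]
      linarith
  have hFc : Continuous F := by
    apply continuous_pi
    intro i
    apply Continuous.div_const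
    rw [← continuousOn_univ]
    intro x _
    rw [continuousWithinAt_univ]
    show Tendsto _ _ _
    rw [tendsto_iff_seq_tendsto]
    intro xs hxs
    apply hcont _ _ (fun n => stp_prof hκ hκ5 _) (fun n => stp_mass hκ hκ5 _)
      (stp_prof hκ hκ5 _) (stp_mass hκ hκ5 _) _ _ (hgp i)
    apply Filter.Eventually.of_forall
    intro t
    have h1 : Continuous (fun x : Fin (N + 1) → ℝ => rm κ N (fun j => Real.pi * x j) (ci N t)) :=
      (rm_cont (ci N t)).comp (continuous_pi (fun j => continuous_const.mul (continuous_apply j)))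
    exact (h1.tendsto x).comp hxs
  obtain ⟨x, _, hx⟩ := brouwer (N + 1) F hFc.continuousOn (by
    intro x _
    have h1 := (hT _ (stp_prof hκ hκ5 (N := N) (fun j => Real.pi * x j))
      (stp_mass hκ hκ5 _)).1
    constructor
    · intro i
      exact div_nonneg (h1.nonneg _) hpi.le
    · intro i
      exact (div_le_one hpi).2 (h1.le_pi _))
  set v : Fin (N + 1) → ℝ := fun j => Real.pi * x j with hv
  set a := stp κ N v with ha
  obtain ⟨hT1, hT2⟩ := hT a (stp_prof hκ hκ5 v) (stp_mass hκ hκ5 v)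
  have hvi : ∀ i, v i = T a (gp N i) := by
    intro i
    have h1 : F x i = x i := by rw [hx]
    have h2 : T a (gp N i) / Real.pi = x i := h1
    show Real.pi * x i = _
    rw [← h2]
    field_simp
  have hmono : Monotone v := by
    intro i j hij
    rw [hvi, hvi]
    apply hT1.mono
    unfold gp
    have : ((i : ℕ) : ℝ) ≤ ((j : ℕ) : ℝ) := by exact_mod_cast hij
    gcongr
  have h0 : ∀ i, 0 ≤ v i := fun i => by rw [hvi]; exact hT1.nonneg _
  have h1 : ∀ i, v i ≤ Real.pi := fun i => by rw [hvi]; exact hT1.le_pi _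
  have hsm : κ / 10 - Real.pi / (N + 1) ≤ sm N v := by
    have h2 := hT2.trans (mass_le hT1 N)
    rw [← Fin.sum_univ_eq_sum_range (fun k => Real.sin (T a (gp N k))) (N + 1)] at h2
    have h3 : ∑ i : Fin (N + 1), Real.sin (T a (gp N i)) = (N + 1) * sm N v := by
      unfold sm
      have : ∀ i : Fin (N + 1), wm N v i = T a (gp N i) := fun i => by
        rw [wm_eq hmono h0 h1, hvi]
      simp only [this]
      field_simp
    rw [h3] at h2
    have h4 : 10 / ((N:ℝ) + 1) * ((N + 1) * sm N v + Real.pi) =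
        10 * (sm N v + Real.pi / (N + 1)) := by field_simp
    rw [h4] at h2
    linarith
  have hlm : lm κ N v ≤ 2 * Real.pi / (N + 1) := by
    apply max_le (by positivity)
    rw [div_le_iff₀ (by linarith)]
    have h2 : κ / 10 - sm N v ≤ Real.pi / (N + 1) := by linarith
    have h3 : 0 < Real.pi / ((N:ℝ) + 1) := by positivity
    have h4 : 2 * Real.pi / ((N:ℝ) + 1) = 2 * (Real.pi / (N + 1)) := by ring
    rw [h4]
    nlinarith
  refine ⟨a, stp_prof hκ hκ5 v, stp_mass hκ hκ5 v, fun t => ?_⟩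
  have h2 : a t - T a (gp N (ci N t)) = lm κ N v * (Real.pi / 2 - v (ci N t)) := by
    show rm κ N v (ci N t) - _ = _
    rw [← hvi]
    unfold rm
    rw [wm_eq hmono h0 h1]
    ring
  rw [h2, abs_mul, abs_of_nonneg (lm_nonneg v)]
  have h3 : |Real.pi / 2 - v (ci N t)| ≤ Real.pi := by
    rw [abs_le]
    constructor <;> linarith [h0 (ci N t), h1 (ci N t)]
  calc lm κ N v * |Real.pi / 2 - v (ci N t)| ≤ (2 * Real.pi / (N + 1)) * Real.pi :=
        mul_le_mul hlm h3 (abs_nonneg _) (by positivity)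
    _ = _ := by ring

/-- R6 -/
theorem exists_fixed_of_brouwer
    (brouwer : ∀ (n : ℕ) (f : (Fin n → ℝ) → (Fin n → ℝ)), ContinuousOn f (Icc 0 1) →
      MapsTo f (Icc 0 1) (Icc 0 1) → ∃ x ∈ Icc (0 : Fin n → ℝ) 1, f x = x)
    (κ : ℝ) (hκ : 0 < κ) (hκ5 : κ ≤ 5) (T : (ℝ → ℝ) → (ℝ → ℝ))
    (hT : ∀ a, Prof a → κ ≤ mass a → Prof (T a) ∧ κ ≤ mass (T a))
    (hcont : ∀ (a : ℕ → ℝ → ℝ) (b : ℝ → ℝ), (∀ n, Prof (a n)) → (∀ n, κ ≤ mass (a n)) →
      Prof b → κ ≤ mass b →
      (∀ᵐ t ∂(volume.restrict (Icc (0:ℝ) 10)), Tendsto (fun n => a n t) atTop (𝓝 (b t))) →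
      ∀ t ∈ Icc (0:ℝ) 10, Tendsto (fun n => T (a n) t) atTop (𝓝 (T b t))) :
    ∃ a, Prof a ∧ κ ≤ mass a ∧ ∀ t ∈ Icc (0:ℝ) 10, T a t = a t := by
  choose aa haP haM haT using exists_approx brouwer hκ hκ5 T hT hcont
  obtain ⟨φ, b, hφ, hb, hlim⟩ := helly aa haP
  have hcb : ∀ᵐ t ∂(volume : Measure ℝ), ContinuousAt b t := by
    have := hb.mono.countable_not_continuousAt.ae_notMem volume
    filter_upwards [this] with t ht
    by_contra h
    exact ht h
  have hae : ∀ᵐ t ∂(volume : Measure ℝ), Tendsto (fun n => aa (φ n) t) atTop (𝓝 (b t)) := by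
    filter_upwards [hcb] with t ht using hlim t ht
  have hmb : κ ≤ mass b := by
    have h1 : Tendsto (fun n => mass (aa (φ n))) atTop (𝓝 (mass b)) := by
      unfold mass
      apply intervalIntegral.tendsto_integral_filter_of_dominated_convergence (fun _ => (1:ℝ))
      · exact Filter.Eventually.of_forall (fun n =>
          (Real.measurable_sin.comp (haP (φ n)).mono.measurable).aestronglyMeasurable)
      · exact Filter.Eventually.of_forall (fun n => Filter.Eventually.of_forall (fun t _ => by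
          rw [Real.norm_eq_abs]; exact Real.abs_sin_le_one _))
      · exact intervalIntegrable_const
      · filter_upwards [hae] with t ht _
        exact (Real.continuous_sin.tendsto _).comp ht
    exact ge_of_tendsto' h1 (fun n => haM (φ n))
  obtain ⟨hTb, hTbm⟩ := hT b hb hmb
  have hTlim : ∀ t ∈ Icc (0:ℝ) 10, Tendsto (fun n => T (aa (φ n)) t) atTop (𝓝 (T b t)) :=
    hcont _ b (fun n => haP _) (fun n => haM _) hb hmb (ae_restrict_of_ae hae)
  have hTP : ∀ n, Prof (T (aa (φ n))) := fun n => (hT _ (haP _) (haM _)).1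
  have hinv : Tendsto (fun n => 1 / ((φ n : ℝ) + 1)) atTop (𝓝 0) :=
    tendsto_one_div_add_atTop_nhds_zero_nat.comp hφ.tendsto_atTop
  have hkey : ∀ t ∈ Ioo (0:ℝ) 10, ContinuousAt b t → ContinuousAt (T b) t → b t = T b t := by
    intro t ht hbt hTbt
    -- position of the grid point
    have hpos : ∀ N : ℕ, gp N (ci N t) ≤ t ∧ t < gp N (ci N t) + 10 / (N + 1) := by
      intro N
      have hN := N1_pos N
      set k := ⌊t * (N + 1) / 10⌋₊ with hk
      have h1 : (k : ℝ) ≤ t * (N + 1) / 10 := Nat.floor_le (by have := ht.1; positivity)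
      have h2 : t * (N + 1) / 10 < k + 1 := Nat.lt_floor_add_one _
      have h3 : k < N + 1 := by
        have : (k : ℝ) < N + 1 := by
          have := ht.2
          nlinarith
        exact_mod_cast this
      have h4 : ((ci N t : Fin (N + 1)) : ℕ) = k := by
        show min N k = k
        omega
      rw [h4]
      unfold gp
      constructor
      · rw [div_le_iff₀ hN]; linarith
      · rw [← add_div, lt_div_iff₀ hN]; linarith
    have hg : Tendsto (fun n => T (aa (φ n)) (gp (φ n) (ci (φ n) t))) atTop (𝓝 (T b t)) := by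
      rw [tendsto_order]
      constructor
      · intro c hc
        have h1 : ∀ᶠ s in 𝓝[<] t, c < T b s := (hTbt.eventually (lt_mem_nhds hc)).filter_mono
          nhdsWithin_le_nhds
        have h2 : ∀ᶠ s in 𝓝[<] t, 0 < s := (lt_mem_nhds ht.1).filter_mono nhdsWithin_le_nhds
        obtain ⟨s, ⟨hs1, hs0⟩, hs2⟩ := ((h1.and h2).and self_mem_nhdsWithin).exists
        have hs2' : s < t := hs2
        have h3 := (hTlim s ⟨hs0.le, by linarith [ht.2]⟩).eventually (lt_mem_nhds hs1)
        have h4 : ∀ᶠ n in atTop, 1 / ((φ n : ℝ) + 1) < (t - s) / 10 :=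
          hinv.eventually (gt_mem_nhds (by linarith))
        filter_upwards [h3, h4] with n hn1 hn2
        have h5 := (hpos (φ n)).2
        have h6 : 10 / ((φ n : ℝ) + 1) = 10 * (1 / ((φ n : ℝ) + 1)) := by ring
        rw [h6] at h5
        exact hn1.trans_le ((hTP n).mono (by linarith))
      · intro c hc
        filter_upwards [(hTlim t ⟨ht.1.le, ht.2.le⟩).eventually (gt_mem_nhds hc)] with n hn
        exact ((hTP n).mono (hpos (φ n)).1).trans_lt hn
    have hd : Tendsto (fun n => aa (φ n) t - T (aa (φ n)) (gp (φ n) (ci (φ n) t))) atTop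
        (𝓝 0) := by
      have h1 : Tendsto (fun n => 2 * Real.pi ^ 2 / ((φ n : ℝ) + 1)) atTop (𝓝 0) := by
        have := hinv.const_mul (2 * Real.pi ^ 2)
        rw [mul_zero] at this
        refine this.congr (fun n => ?_)
        ring
      exact squeeze_zero_norm (fun n => by rw [Real.norm_eq_abs]; exact haT (φ n) t) h1
    have h1 := hlim t hbt
    have h2 := hd.add hg
    simp only [sub_add_cancel, zero_add] at h2
    exact tendsto_nhds_unique h1 h2
  have hae2 : ∀ᵐ t ∂(volume.restrict (Icc (0:ℝ) 10)), T b t = b t := by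
    have hcT : ∀ᵐ t ∂(volume : Measure ℝ), ContinuousAt (T b) t := by
      have := hTb.mono.countable_not_continuousAt.ae_notMem volume
      filter_upwards [this] with t ht
      by_contra h
      exact ht h
    have h0 : ∀ᵐ t ∂(volume : Measure ℝ), t ≠ 0 := Measure.ae_ne volume 0
    have h10 : ∀ᵐ t ∂(volume : Measure ℝ), t ≠ 10 := Measure.ae_ne volume 10
    rw [ae_restrict_iff' measurableSet_Icc]
    filter_upwards [hcb, hcT, h0, h10] with t h1 h2 h3 h4 h5
    exact (hkey t ⟨lt_of_le_of_ne h5.1 (Ne.symm h3), lt_of_le_of_ne h5.2 h4⟩ h1 h2).symm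
  refine ⟨T b, hTb, hTbm, fun t ht => ?_⟩
  have h1 := hcont (fun _ => T b) b (fun _ => hTb) (fun _ => hTbm) hb hmb (by
    filter_upwards [hae2] with s hs
    rw [← hs]
    exact tendsto_const_nhds) t ht
  exact tendsto_nhds_unique tendsto_const_nhds h1

/-- R6 as requested. -/
theorem exists_fixed (κ : ℝ) (hκ : 0 < κ) (hκ5 : κ ≤ 5) (T : (ℝ → ℝ) → (ℝ → ℝ))
    (hT : ∀ a, Prof a → κ ≤ mass a → Prof (T a) ∧ κ ≤ mass (T a))
    (hcont : ∀ (a : ℕ → ℝ → ℝ) (b : ℝ → ℝ), (∀ n, Prof (a n)) → (∀ n, κ ≤ mass (a n)) →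
      Prof b → κ ≤ mass b →
      (∀ᵐ t ∂(volume.restrict (Icc (0:ℝ) 10)), Tendsto (fun n => a n t) atTop (𝓝 (b t))) →
      ∀ t ∈ Icc (0:ℝ) 10, Tendsto (fun n => T (a n) t) atTop (𝓝 (T b t))) :
    ∃ a, Prof a ∧ κ ≤ mass a ∧ ∀ t ∈ Icc (0:ℝ) 10, T a t = a t :=
  exists_fixed_of_brouwer (fun n f => Pool.Agent.Helper23.VS.brouwer_cube n f)
    κ hκ hκ5 T hT hcont

end Pool.Agent.Helper20.VS
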